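import Pool.Agent.HI.Final

set_option autoImplicit false

noncomputable section

namespace Pool.Agent.EH.Kept.Hierarchy95030e

open Pool.Agent.VN Pool.Agent.HI

/-- Every group in the smallest class of groups which contains the trivial groups and is closed
under directed unions and under graphs of groups (actions on trees without inversions) satisfies
the strong Atiyah conjecture over `ℂ`. -/
theorem result (G : Type) [Group G] (h : Hier G) : AtiyahOver ⊤ G :=
  atiyah_of_hier ⊤ G h

end Pool.Agent.EH.Kept.Hierarchy95030e
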